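import Pool.Agent.R882.LDet

/-!
# Weak abundance for the images of small degree of open subsets of smooth complete intersections in
products of projective lines

Let `V` be a smooth complete intersection, of any codimension and of dimension `n ≥ 1`, of
hypersurfaces `F_k = 0` of multidegrees `(d_{k,i})`, `k ∈ κ`, in the product of the projective lines
with the coordinates `x_i`, `i ∈ ι`, and let `D` be the divisor of the fibres `x_i = a` on `V`, for `a`
in a finite subset `B_i` of the projective line; `B_i` may be empty, or contain `∞`. We suppose that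
`V` and the fibres meet transversally, so that `D` has normal crossings, and that
`Σ_k d_{k,i} + |B_i| = m_i + 2` with `m_i ≥ 0`, so that `K_V + D = O(m_i, i ∈ ι)`. Let `V° = V \ D`. For
example, `V°` may be a product of punctured lines (`κ` empty), or an affine or projective variety.
Let `x_{i0}` be one of the coordinates, let `V'` be the image of `V` under the projection which forgets
`x_{i0}`, and let `M ≤ m_i` for all `i ≠ i0`.

Let `W° = W \ D_W` be any smooth variety (`W` projective, `D_W` a divisor with normal crossings) with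
a dominant rational map `V ⇢ W` of degree `r` such that `V° ⇢ W°` is proper, for example a finite
morphism followed by a resolution of singularities; the map need not be a quotient by a group, and
its ramification is arbitrary. The theorem:

* (1) If `M ≤ m_{i0}`, or if `B_{i0}` is not empty and `V ⇢ V'` is generically finite, then
  `K_W + D_W` is effective if `r ≤ M + 1`, and big if `2 r ≤ M + 1`.
* (2) If `B_{i0}` is empty then the same holds, or `V ⇢ W` factors through `V ⇢ V'`.
* (3) Let `V` be a hypersurface, `B_{i0}` empty, and let `B_{i1}` have at most one element for some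
  `i1 ≠ i0`. If `r ≤ M + 1` then these are equivalent: `K_W + D_W` has no sections; its Kodaira
  dimension is `-∞`; it is not pseudo-effective; `W°` is `A¹`-uniruled; `V ⇢ W` factors through
  `V ⇢ V'`. If `2 r ≤ M + 1` they are also equivalent to: `K_W + D_W` is not big.

So if `2 r ≤ M + 1` then weak abundance, `κ = ν`, holds for `(W, D_W)` in the cases (1) and (3): the
bundle `K_W + D_W` is big, or it is not pseudo-effective.

The function-field language of the starting repository is used: `K` is the function field of `V`, and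
`L`, a subfield of `K`, the function field of `W`. The pair `(W, D_W)` is given by the set `Bd` of the
places of `L` without centre on `W°` (all prime divisors over `D_W` are in it). A section of
`N (K_W + D_W)` is an `N`-canonical form with at most logarithmic poles which is regular at the prime
divisors that are not in `Bd` (`LogSec`). `KodGe ℂ L n Bd 0` says that the Kodaira dimension of
`K_W + D_W` is not `-∞`, `Psef ℂ L n Bd` that `K_W + D_W` is pseudo-effective, `LogGeneralType ℂ L n Bd`
that it is big (`Pool/Agent/W602/GT`), `IsA1Uniruled ℂ L n Bd` that `W°` is `A¹`-uniruled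
(`Pool/Agent/W619/PL/LDefs.lean`). `chart d S F` (`Pool/Agent/R882/CRes.lean`) is the equation of the
closure of `F = 0`, as a divisor of multidegree `d`, in the affine chart of the product of projective
lines with the coordinates `z_i = 1 / x_i`, `i ∈ S`, and `z_i = x_i`, `i ∉ S`.
-/

set_option autoImplicit false
set_option linter.overlappingInstances false
set_option linter.unusedDecidableInType false
set_option linter.unusedFintypeInType false

open FF MvPolynomial Pool.Agent.W602.GT
open Pool.Agent.W619.PL (IsA1Uniruled)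
open Pool.Agent.R882.CI (chart)

namespace Pool.Agent.Results.MP_2c56d9_ag.LogImages

section

variable {κ ι : Type} [Fintype ι] [DecidableEq ι]

/-- The point `z` of the chart `S` is on one of the fibres of the `i`-th coordinate: over `∞` (if
`i ∈ S`, `i ∈ B`, `z i = 0`), or over a point of `A i` (if `i ∉ S`). -/
def OnFibre (B : Finset ι) (A : ι → Finset ℂ) (S : Finset ι) (z : ι → ℂ) (i : ι) : Prop :=
  (i ∈ S → i ∈ B ∧ z i = 0) ∧ (i ∉ S → z i ∈ A i)

/-- The closures of the hypersurfaces `F k = 0`, as divisors of multidegrees `d k`, and the fibres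
meet transversally: in each affine chart, at all common zeros `z` of the equations, the vectors of
the partial derivatives with respect to the coordinates `i` such that `z` is not on a fibre of the
`i`-th coordinate are linearly independent. -/
def IsLogSmooth (d : κ → ι → ℕ) (F : κ → MvPolynomial ι ℂ) (B : Finset ι) (A : ι → Finset ℂ) :
    Prop :=
  ∀ (S : Finset ι) (z : ι → ℂ), (∀ k, eval z (chart (d k) S (F k)) = 0) →
    LinearIndependent ℂ (fun (k : κ) (i : {i // ¬ OnFibre B A S z i}) =>
      eval z (pderiv i.1 (chart (d k) S (F k))))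

variable {K : Type} [Field K] [Algebra ℂ K]

/-- `x` is the generic point of an irreducible component, of dimension `n` and not contained in the
fibres, of the complete intersection `F k = 0`, `k ∈ κ`, and `K` is its function field. -/
structure IsGenericPoint (n : ℕ) (F : κ → MvPolynomial ι ℂ) (A : ι → Finset ℂ) (x : ι → K) :
    Prop where
  zero : ∀ k, aeval x (F k) = 0
  off : ∀ i, ∀ a ∈ A i, x i ≠ algebraMap ℂ K a
  gen : IntermediateField.adjoin ℂ (Set.range x) = ⊤
  dim : Algebra.trdeg ℂ K = n

/-- The places of `K` without centre on `V°`: `x i` has a pole for some `i ∈ B`, or a value in `A i`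
for some `i`. -/
def Boundary (B : Finset ι) (A : ι → Finset ℂ) (x : ι → K) (P : Place ℂ K) : Prop :=
  (∃ i ∈ B, ¬ P.Reg (x i)) ∨ ∃ i, ∃ a ∈ A i, 0 < P.ord (x i - algebraMap ℂ K a)

end

/-- `K_W + D_W` has no sections: the only canonical form with at most logarithmic poles, regular at
the prime divisors which are not in the boundary, is `0`. -/
def LogGenusZero (L : Type) [Field L] [Algebra ℂ L] (n : ℕ) (Bd : Place ℂ L → Prop) : Prop :=
  ∀ ω : (Fin n → Derivation ℂ L L) → L, LogSec ℂ L n 1 Bd ω → ∀ D, ω D = 0

/-- The map `V ⇢ W` factors through the projection `V ⇢ V'` which forgets the coordinate `x_i`: all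
elements of the subfield `L` of `K` are rational functions of the other coordinates. -/
def FactorsThrough (L : Type) [Field L] {K : Type} [Field K] [Algebra ℂ K] [Algebra L K] {ι : Type}
    (x : ι → K) (i : ι) : Prop :=
  ∀ f : L, algebraMap L K f ∈ IntermediateField.adjoin ℂ (x '' {i}ᶜ)

/-- **Logarithmic general type or `A¹`-uniruled.** Let `V` be a component of a smooth complete
intersection of dimension `n ≥ 1` of hypersurfaces of multidegrees `d k`, `k ∈ κ`, in the product of
the projective lines with the coordinates `x i`, `i ∈ ι`, which meets the fibres `x i = a`, `a ∈ A i`,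
and `x i = ∞`, `i ∈ B`, transversally, `K_V + D = O(m i, i ∈ ι)`, `M ≤ m i` for `i ≠ i0`. Let `V ⇢ W` be
a dominant rational map of degree `r` to a smooth projective variety `W` with function field `L`, and
let `Bd` be the set of the places without centre on `W° = W \ D_W`, `V° ⇢ W°` being proper (a place
of `K` has a centre on `V°` if and only if the place of `L` below it has a centre on `W°`).
(1) If `M ≤ m i0`, or if there are fibres of the coordinate `x i0` and `V ⇢ V'` is generically finite,
then `K_W + D_W` has sections if `r ≤ M + 1`, and is big if `2 r ≤ M + 1`. (2) If there are no fibres of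
the coordinate `x i0`, the same holds unless `V ⇢ W` factors through `V ⇢ V'`. (3) If `V` is a
hypersurface and the coordinate `x i1`, `i1 ≠ i0`, has at most one fibre, the five conditions, or six
conditions if `2 r ≤ M + 1`, are equivalent. -/
theorem result {n M : ℕ} (hn : 1 ≤ n) {κ ι : Type} [Fintype κ] [Fintype ι] [DecidableEq ι]
    (hcard : Fintype.card ι = n + Fintype.card κ) {d : κ → ι → ℕ} {B : Finset ι}
    {A : ι → Finset ℂ} {m : ι → ℕ}
    (hm : ∀ i, ∑ k, d k i + (A i).card + (if i ∈ B then 1 else 0) = m i + 2) {i0 : ι}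
    (hM : ∀ i, i ≠ i0 → M ≤ m i)
    {F : κ → MvPolynomial ι ℂ} (hF : ∀ k i, (F k).degreeOf i ≤ d k i)
    (hs : IsLogSmooth d F B A)
    {K : Type} [Field K] [Algebra ℂ K] {x : ι → K} (hx : IsGenericPoint n F A x)
    (L : Type) [Field L] [Algebra ℂ L] [Algebra L K] [IsScalarTower ℂ L K]
    [FiniteDimensional L K] (Bd : Place ℂ L → Prop)
    (hBd : ∀ (P : Place ℂ L) (Q : Place ℂ K) (e : ℕ), Over Q P e → (Bd P ↔ Boundary B A x Q)) :
    ((M ≤ m i0 ∨ ((i0 ∈ B ∨ (A i0).Nonempty) ∧
        IsAlgebraic (IntermediateField.adjoin ℂ (x '' {i0}ᶜ)) (x i0))) →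
      (Module.finrank L K ≤ M + 1 → ¬ LogGenusZero L n Bd) ∧
      (2 * Module.finrank L K ≤ M + 1 → LogGeneralType ℂ L n Bd)) ∧
    (i0 ∉ B → A i0 = ∅ →
      (Module.finrank L K ≤ M + 1 → ¬ LogGenusZero L n Bd ∨ FactorsThrough L x i0) ∧
      (2 * Module.finrank L K ≤ M + 1 → LogGeneralType ℂ L n Bd ∨ FactorsThrough L x i0)) ∧
    (Fintype.card κ = 1 → i0 ∉ B → A i0 = ∅ →
      ∀ i1 : ι, i1 ≠ i0 → (A i1).card + (if i1 ∈ B then 1 else 0) ≤ 1 →
      (Module.finrank L K ≤ M + 1 →
        [LogGenusZero L n Bd, ¬ KodGe ℂ L n Bd 0, ¬ Psef ℂ L n Bd, IsA1Uniruled ℂ L n Bd,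
          FactorsThrough L x i0].TFAE) ∧
      (2 * Module.finrank L K ≤ M + 1 →
        [LogGenusZero L n Bd, ¬ KodGe ℂ L n Bd 0, ¬ Psef ℂ L n Bd, ¬ LogGeneralType ℂ L n Bd,
          IsA1Uniruled ℂ L n Bd, FactorsThrough L x i0].TFAE)) := by
  classical
  have hessK : Algebra.EssFiniteType ℂ K := by
    rw [← IntermediateField.fg_top_iff]
    exact ⟨Finset.univ.image x, by
      rw [Finset.coe_image, Finset.coe_univ, Set.image_univ, hx.gen]⟩
  have hxE : ∀ j, j ≠ i0 → x j ∈ IntermediateField.adjoin ℂ (x '' {i0}ᶜ) := fun j hj =>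
    IntermediateField.subset_adjoin ℂ _ ⟨j, hj, rfl⟩
  have hs' : Pool.Agent.R882.CI.LogSmooth d F B A := hs
  have hBK : ∀ (P : Place ℂ L) (Q : Place ℂ K) (e : ℕ), Over Q P e →
      Pool.Agent.R882.CI.Off B A x Q → Bd P := fun P Q e h => (hBd P Q e h).2
  -- the other coordinates
  obtain ⟨σ⟩ : Nonempty (Fin (Fintype.card {j // j ≠ i0}) ≃ {j // j ≠ i0}) :=
    ⟨(Fintype.equivFin _).symm⟩
  have hrange := Pool.Agent.R882.CI.rest_range σ x
  obtain ⟨F0, hF0⟩ : ∃ F0 : IntermediateField ℂ K, F0 = (IntermediateField.adjoin L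
    (Set.range (Pool.Agent.R882.CI.rest σ x))).restrictScalars ℂ := ⟨_, rfl⟩
  have hEF0 : IntermediateField.adjoin ℂ (x '' {i0}ᶜ) ≤ F0 := by
    rw [← hrange, hF0, IntermediateField.adjoin_le_iff]
    exact IntermediateField.subset_adjoin L _
  have hLF0 : ∀ f : L, algebraMap L K f ∈ F0 := by
    intro f
    rw [hF0]
    exact (IntermediateField.adjoin L (Set.range
      (Pool.Agent.R882.CI.rest σ x))).algebraMap_mem f
  have hfinF0 : FiniteDimensional F0 K := by
    have h1 : FiniteDimensional (IntermediateField.adjoin L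
      (Set.range (Pool.Agent.R882.CI.rest σ x))) K := inferInstance
    rw [hF0]
    exact h1
  have hpos0 : 0 < Module.finrank F0 K := Module.finrank_pos
  -- detection by the other coordinates
  have hdet0 : Module.finrank F0 K ≤ m i0 + 1 →
      (Module.finrank L K ≤ M + 1 → ¬ LogGenusZero L n Bd) ∧
      (2 * Module.finrank L K ≤ M + 1 →
        IsAlgebraic (IntermediateField.adjoin ℂ (x '' {i0}ᶜ)) (x i0) →
        LogGeneralType ℂ L n Bd) := by
    intro hdeg
    have h1 := Pool.Agent.R882.CI.detectsL hx.dim hm hM hF hs' hcard hx.zero hx.off hx.gen σ F0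
      (fun j hj => hEF0 (hxE j hj)) hfinF0 hdeg
    obtain ⟨h2, h3⟩ := Pool.Agent.R882.LT.core_all hn hx.dim (j0 := 0) (by
      rw [Pool.Agent.R882.CI.rest, Fin.cons_zero]) L hBK F0 hF0 h1
    refine ⟨fun hr => h2 (by nlinarith), fun hr halg => h3 (by nlinarith) fun τ => ?_⟩
    rw [hrange]
    have hfin : FiniteDimensional (IntermediateField.adjoin ℂ (x '' {i0}ᶜ)) K :=
      Pool.Agent.R882.CI.fin_of_alg hx.gen hxE halg
    exact (Algebra.IsIntegral.isIntegral τ).isAlgebraic
  -- the coordinate without fibres
  have halg0 : i0 ∉ B → A i0 = ∅ →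
      IsAlgebraic (IntermediateField.adjoin ℂ (x '' {i0}ᶜ)) (x i0) := by
    intro hi0 hAi0
    refine Pool.Agent.R882.CI.halg_of hx.dim (Pool.Agent.R882.CI.kodGe_zero hx.dim (fun i => ?_)
      hF hs' hcard hx.zero hx.off hx.gen) hx.off hx.gen hi0 hAi0
    rw [hm i]
    omega
  -- the degree over an intermediate field
  have hhalf : ∀ F' : IntermediateField ℂ K, i0 ∉ B → A i0 = ∅ →
      IntermediateField.adjoin ℂ (x '' {i0}ᶜ) < F' → Module.finrank F' K ≤ m i0 + 1 := by
    intro F' hi0 hAi0 hlt
    have halg := halg0 hi0 hAi0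
    have hfin : FiniteDimensional (IntermediateField.adjoin ℂ (x '' {i0}ᶜ)) K :=
      Pool.Agent.R882.CI.fin_of_alg hx.gen hxE halg
    have h1 := Pool.Agent.R882.CI.deg_rest hx.dim hF hs' hcard hx.zero hx.gen halg
    have h4 := hm i0
    rw [hAi0, if_neg hi0, Finset.card_empty, add_zero, add_zero] at h4
    obtain ⟨q, hq⟩ := IntermediateField.finrank_dvd_of_le_left hlt.le
    have hpos : 0 < Module.finrank (IntermediateField.adjoin ℂ (x '' {i0}ᶜ)) K :=
      Module.finrank_pos
    have hq1 : q ≠ 1 := by
      intro h1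
      rw [h1, mul_one] at hq
      exact hlt.ne (IntermediateField.eq_of_le_of_finrank_eq' hlt.le hq)
    have hq0 : q ≠ 0 := by
      intro h1
      rw [h1, mul_zero] at hq
      omega
    have h5 : Module.finrank F' K * 2 ≤ Module.finrank F' K * q :=
      Nat.mul_le_mul_left _ (by omega)
    have h6 : 0 < Module.finrank F' K := by
      rcases Nat.eq_zero_or_pos (Module.finrank F' K) with h | h
      · rw [h, zero_mul] at hq
        omega
      · exact h
    omega
  have hfacE : ¬ FactorsThrough L x i0 → IntermediateField.adjoin ℂ (x '' {i0}ᶜ) < F0 := by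
    intro hnf
    refine lt_of_le_of_ne hEF0 fun h => hnf fun f => ?_
    rw [h]
    exact hLF0 f
  refine ⟨?_, fun hi0 hAi0 => ⟨fun hr => ?_, fun hr => ?_⟩, ?_⟩
  · -- (1)
    rintro (hMi0 | ⟨hbd, halg⟩)
    · obtain ⟨σ'⟩ : Nonempty (Fin (Fintype.card ι) ≃ ι) := ⟨(Fintype.equivFin _).symm⟩
      have hMall : ∀ i, M ≤ m i := by
        intro i
        by_cases hi : i = i0
        · rw [hi]
          exact hMi0
        · exact hM i hi
      have htop : ∀ τ : K, τ ∈ IntermediateField.adjoin ℂ
          (Set.range (Pool.Agent.R882.CI.full σ' x)) := by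
        intro τ
        have h1 : τ ∈ IntermediateField.adjoin ℂ (Set.range x) := by
          rw [hx.gen]
          trivial
        exact IntermediateField.adjoin.mono ℂ _ _ (Pool.Agent.R882.CI.full_range σ' x) h1
      obtain ⟨F1, hF1⟩ : ∃ F1 : IntermediateField ℂ K, F1 = (IntermediateField.adjoin L
        (Set.range (Pool.Agent.R882.CI.full σ' x))).restrictScalars ℂ := ⟨_, rfl⟩
      have hF1top : F1 = ⊤ := by
        rw [eq_top_iff]
        intro τ _
        have h2 : IntermediateField.adjoin ℂ (Set.range (Pool.Agent.R882.CI.full σ' x)) ≤ F1 := by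
          rw [hF1, IntermediateField.adjoin_le_iff]
          exact IntermediateField.subset_adjoin L _
        exact h2 (htop τ)
      have h1 := Pool.Agent.R882.CI.detectsL_full hx.dim hm hMall hF hs' hcard hx.zero hx.off
        hx.gen σ' F1 hF1top
      have h4 : Module.finrank F1 K = 1 := by
        rw [hF1top]
        exact IntermediateField.finrank_top
      obtain ⟨h2, h3⟩ := Pool.Agent.R882.LT.core_all hn hx.dim (j0 := 0) (by
        rw [Pool.Agent.R882.CI.full, Fin.cons_zero]) L hBK F1 hF1 h1
      rw [h4, one_mul] at h2 h3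
      exact ⟨h2, fun hr => h3 hr fun τ =>
        isAlgebraic_algebraMap (⟨τ, htop τ⟩ : IntermediateField.adjoin ℂ
          (Set.range (Pool.Agent.R882.CI.full σ' x)))⟩
    · have hfin : FiniteDimensional (IntermediateField.adjoin ℂ (x '' {i0}ᶜ)) K :=
        Pool.Agent.R882.CI.fin_of_alg hx.gen hxE halg
      have h1 := Pool.Agent.R882.CI.deg_rest hx.dim hF hs' hcard hx.zero hx.gen halg
      have h2 : Module.finrank F0 K ≤
          Module.finrank (IntermediateField.adjoin ℂ (x '' {i0}ᶜ)) K :=
        Nat.le_of_dvd Module.finrank_pos (IntermediateField.finrank_dvd_of_le_left hEF0)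
      have h3 : 1 ≤ (A i0).card + (if i0 ∈ B then 1 else 0) := by
        rcases hbd with h | h
        · rw [if_pos h]
          omega
        · have := Finset.card_pos.2 h
          omega
      have h4 := hm i0
      obtain ⟨h5, h6⟩ := hdet0 (by omega)
      exact ⟨h5, fun hr => h6 hr halg⟩
  · by_contra hcon
    push Not at hcon
    exact (hdet0 (hhalf F0 hi0 hAi0 (hfacE hcon.2))).1 hr hcon.1
  · by_contra hcon
    push Not at hcon
    exact hcon.1 ((hdet0 (hhalf F0 hi0 hAi0 (hfacE hcon.2))).2 hr (halg0 hi0 hAi0))
  · -- (3)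
    intro hκ hi0 hAi0 i1 h01 hi1
    have halg := halg0 hi0 hAi0
    have hfin : FiniteDimensional (IntermediateField.adjoin ℂ (x '' {i0}ᶜ)) K :=
      Pool.Agent.R882.CI.fin_of_alg hx.gen hxE halg
    have hbase : Pool.Agent.R882.Over.IsBase n (Pool.Agent.R882.CI.rest σ x) :=
      ⟨hessK, hx.dim, ⟨0, by rw [Pool.Agent.R882.CI.rest, Fin.cons_zero]⟩,
        by rw [hrange]; exact hfin⟩
    have hpos : ∀ s, s ≤ M + 1 → Pool.Agent.R882.LT.PositiveL n
        (Pool.Agent.R882.CI.Off B A x) (Pool.Agent.R882.CI.rest σ x) s := by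
      intro s hs'' F' hF'
      rw [hrange] at hF'
      have hfinF : FiniteDimensional F' K := by
        refine Pool.Agent.R882.CI.fin_of_alg hx.gen (fun j hj => hF'.le (hxE j hj)) ?_
        obtain ⟨p, hp0, hp⟩ := halg
        refine ⟨p.map (IntermediateField.inclusion hF'.le).toRingHom, ?_, ?_⟩
        · exact (Polynomial.map_ne_zero_iff (IntermediateField.inclusion hF'.le).injective).2 hp0
        · rw [Polynomial.aeval_def, Polynomial.eval₂_map]
          rw [Polynomial.aeval_def] at hp
          exact hp
      have h1 : 0 < Module.finrank F' K := Module.finrank_pos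
      exact ⟨M, by nlinarith, Pool.Agent.R882.CI.detectsL hx.dim hm hM hF hs' hcard hx.zero
        hx.off hx.gen σ F' (fun j hj => hF'.le (hxE j hj)) hfinF (hhalf F' hi0 hAi0 hF')⟩
    obtain ⟨h1, h2⟩ := Pool.Agent.R882.LT.over_log hn hbase
      (Pool.Agent.R882.CI.a1Ruled_rest hx.dim (by rw [hcard, hκ]) hx.off h01 hi0 hAi0 hi1
        (fun τ => (Algebra.IsIntegral.isIntegral τ).isAlgebraic) hrange) L hBd
    have hfac : Pool.Agent.R882.Over.FactorsThrough L (Pool.Agent.R882.CI.rest σ x) ↔
        FactorsThrough L x i0 := by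
      constructor
      · intro h f
        rw [← hrange]
        exact h f
      · intro h f
        rw [hrange]
        exact h f
    have key : Module.finrank L K ≤ M + 1 →
        [LogGenusZero L n Bd, ¬ KodGe ℂ L n Bd 0, ¬ Psef ℂ L n Bd, IsA1Uniruled ℂ L n Bd,
          FactorsThrough L x i0].TFAE := by
      intro hr
      have h3 := h1 (hpos _ hr)
      rw [hfac] at h3
      exact h3
    refine ⟨key, fun hr => ?_⟩
    have h3 := key (by omega)
    have h4 := h2 (hpos _ hr)
    rw [hfac] at h4
    tfae_have 1 ↔ 2 := h3.out 0 1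
    tfae_have 1 ↔ 3 := h3.out 0 2
    tfae_have 1 ↔ 5 := h3.out 0 3
    tfae_have 1 ↔ 6 := h3.out 0 4
    tfae_have 4 ↔ 6 := h4
    tfae_finish

end Pool.Agent.Results.MP_2c56d9_ag.LogImages
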