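import Pool.Agent.R887.CorD
import Pool.Agent.R887.Exc

/-!
Weak abundance for effective log canonical pairs with multi-valued maps of large degree from a fixed
variety.
-/

set_option autoImplicit false

open FF Pool.Agent.W602.GT Pool.Agent.Y172 Pool.Agent.R887

/-- Let `(X, Δ)` be a projective log canonical pair of dimension `n ≥ 1`, with generic point `y`,
such that `m (K_X + Δ)` has a section `η ≠ 0` for some `m ≥ 1`. Let `X'` be a normal projective
variety of dimension `n`, with generic point `y'`, and `S` a finite set of prime divisors of `X'`.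
Suppose that for all `ε > 0` there is a multi-valued rational map `X' ← X'' → X`, that is a variety
`X''` with a generically finite rational map `p` to `X'`, unramified over the prime divisors of `X'`
which are not in `S`, and a dominant rational map `f` to `X`, with `f^* (K_X + Δ) ≤ K_X''` over the
prime divisors of `X'` which are not in `S`, such that the intersection number of `n - 1` pull backs
by `f` of hyperplane sections of `X` and one pull back by `p` of a hyperplane section of `X'` is at
most `ε deg f`. Then the Kodaira dimension and the numerical dimension of `K_X + Δ` are both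
zero. -/
theorem Pool.Agent.Results.MP_2c56d9_ag.MultivaluedWeakAbundance.result
    {K K' : Type} [Field K] [Algebra ℂ K] [Field K'] [Algebra ℂ K'] {N N' n : ℕ}
    {y : Fin (N + 1) → K} {y' : Fin (N' + 1) → K'} (hy : NormalModel y) (hy' : NormalModel y')
    (hn : Algebra.trdeg ℂ K = n) (hn' : Algebra.trdeg ℂ K' = n) (hn0 : 0 < n)
    {Δ : Place ℂ K → ℚ} (hΔ : Effective y Δ) (hLC : LogCanonical y n Δ) {m : ℕ} (hm : 1 ≤ m)
    {η : (Fin n → Derivation ℂ K K) → K} (hη : IsSection y n m (m • Δ) η) (hη0 : η ≠ 0)
    {S : Set (Place ℂ K')} (hS : S.Finite)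
    (h : ∀ ε : ℝ, 0 < ε → ∃ (L : Type) (_ : Field L) (_ : Algebra ℂ L) (φ : K →ₐ[ℂ] L)
      (ψ : K' →ₐ[ℂ] L), FiniteDimensional ψ.fieldRange L ∧ UnramifiedOutside ψ y' S ∧
        MultiPullBackLe φ ψ y n Δ y' S ∧ MultiDegreeLe φ ψ y y' (n - 1) 1 ε) :
    kodairaDim y n Δ = ((0 : ℕ) : WithBot ℕ) ∧
      ∀ A, Effective y A → Integral y A → numericalDim y n Δ A = ((0 : ℕ) : EReal) :=
  abundance_zero hy hn hn0 hΔ (numdim2 hy hy' hn hn' hn0 hLC (j := 1) hn0 hS h) hm hη hη0
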