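import Pool.Agent.R887.BezB
import Pool.Agent.R887.Exc
import Pool.Agent.R887.DefsLK

/-!
Weak abundance for pairs of positive Kodaira dimension with multi-valued maps from pairs.
-/

set_option autoImplicit false

open FF Pool.Agent.W602.GT Pool.Agent.Y172 Pool.Agent.R887

/-- Let `(X, Δ)` be a projective pair of dimension `n ≥ 1`, with generic point `y`, for instance a
log canonical pair.

(1) Let `j ≤ n`, `(X', Δ')` any projective pair of dimension `n`, with generic point `y'`, and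
`X' ← X'' → X` a multi-valued map: a variety `X''` with a generically finite rational map `p` to `X'`
and a dominant rational map `f` to `X`, such that `f^* (K_X + Δ) ≤ p^* (K_X' + Δ')` over the prime
divisors of `X'` (`p` may be ramified anywhere, as for orbifold coverings). If the positive degree
`⟨K_X' + Δ'⟩ · H' ^ (n - 1)` is at most `μ` and the intersection number
`(f ^* H) ^ (n - j) · (p ^* H') ^ j` is at most `c deg f`, then the positive product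
`⟨(K_X + Δ) ^ j⟩ · H ^ (n - j)` is at most `c μ ^ j`.

(2) Let `1 ≤ k < n`. Suppose that for all `ε > 0` there are such `(X', Δ')`, `X''`, `p`, `f`, `μ`
and `c` with `j = k + 1` and `c μ ^ (k + 1) ≤ ε`. If the Kodaira dimension of `K_X + Δ` is at least
`k`, then the Kodaira dimension and the numerical dimension of `K_X + Δ` are both equal to `k`.

(3) All pairs `(X', Δ')` have a finite positive degree, so that in (2) one can take a fixed pair
`(X', Δ')` and `c → 0`. -/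
theorem Pool.Agent.Results.MP_2c56d9_ag.OrbifoldSources.result
    {K : Type} [Field K] [Algebra ℂ K] {N n : ℕ} {y : Fin (N + 1) → K} (hy : NormalModel y)
    (hn : Algebra.trdeg ℂ K = n) (hn0 : 0 < n) {Δ : Place ℂ K → ℚ} :
    (∀ j ≤ n, ∀ (K' L : Type) [Field K'] [Algebra ℂ K'] [Field L] [Algebra ℂ L] (N' : ℕ)
      (y' : Fin (N' + 1) → K') (Δ' : Place ℂ K' → ℚ) (φ : K →ₐ[ℂ] L) (ψ : K' →ₐ[ℂ] L) (μ c : ℝ),
      NormalModel y' → Algebra.trdeg ℂ K' = n → {P | IsPrimeDivisor y' P ∧ Δ' P ≠ 0}.Finite →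
      0 ≤ μ → PositiveProductLe y' n Δ' 1 μ → FiniteDimensional ψ.fieldRange L →
      LogPullBackLe φ ψ y n Δ y' Δ' → MultiDegreeLe φ ψ y y' (n - j) j c →
      PositiveProductLe y n Δ j (c * μ ^ j)) ∧
    (∀ k : ℕ, 1 ≤ k → k < n →
      (∀ ε : ℝ, 0 < ε → ∃ (K' L : Type) (_ : Field K') (_ : Algebra ℂ K') (_ : Field L)
        (_ : Algebra ℂ L) (N' : ℕ) (y' : Fin (N' + 1) → K') (Δ' : Place ℂ K' → ℚ)
        (φ : K →ₐ[ℂ] L) (ψ : K' →ₐ[ℂ] L) (μ c : ℝ), NormalModel y' ∧ Algebra.trdeg ℂ K' = n ∧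
        {P | IsPrimeDivisor y' P ∧ Δ' P ≠ 0}.Finite ∧ 0 ≤ μ ∧ PositiveProductLe y' n Δ' 1 μ ∧
        FiniteDimensional ψ.fieldRange L ∧ LogPullBackLe φ ψ y n Δ y' Δ' ∧
        MultiDegreeLe φ ψ y y' (n - (k + 1)) (k + 1) c ∧ c * μ ^ (k + 1) ≤ ε) →
      LogKodairaGe y n Δ k → LogKodairaEq y n Δ k ∧ LogNumDimEq y n Δ k) ∧
    ∀ {K' : Type} [Field K'] [Algebra ℂ K'] {N' : ℕ} {y' : Fin (N' + 1) → K'},
      NormalModel y' → Algebra.trdeg ℂ K' = n → ∀ {Δ' : Place ℂ K' → ℚ},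
      {P | IsPrimeDivisor y' P ∧ Δ' P ≠ 0}.Finite →
      ∃ μ : ℝ, 0 ≤ μ ∧ PositiveProductLe y' n Δ' 1 μ := by
  have h1 : ∀ j ≤ n, ∀ (K' L : Type) [Field K'] [Algebra ℂ K'] [Field L] [Algebra ℂ L] (N' : ℕ)
      (y' : Fin (N' + 1) → K') (Δ' : Place ℂ K' → ℚ) (φ : K →ₐ[ℂ] L) (ψ : K' →ₐ[ℂ] L) (μ c : ℝ),
      NormalModel y' → Algebra.trdeg ℂ K' = n → {P | IsPrimeDivisor y' P ∧ Δ' P ≠ 0}.Finite →
      0 ≤ μ → PositiveProductLe y' n Δ' 1 μ → FiniteDimensional ψ.fieldRange L →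
      LogPullBackLe φ ψ y n Δ y' Δ' → MultiDegreeLe φ ψ y y' (n - j) j c →
      PositiveProductLe y n Δ j (c * μ ^ j) := by
    intro j hj K' L _ _ _ _ N' y' Δ' φ ψ μ c hy' hn' hΔ' hμ hpp hψ hlog hc
    exact (orb_degree_le hy' hn' hn0 hΔ' hμ hpp hy hn φ ψ hψ hlog hj hc).2
  refine ⟨h1, fun k hk1 hk h hkod => ?_, fun hy' hn' Δ' hΔ' => finite_product hy' hn' hΔ' hn0⟩
  have hnum : NumDimLt y n Δ (k + 1) := by
    refine PositiveProductLe.numDimLt (PositiveProductLe.of_forall fun ε hε => ?_)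
    obtain ⟨K', L, _, _, _, _, N', y', Δ', φ, ψ, μ, c, hy', hn', hΔ', hμ, hpp, hψ, hlog, hc,
      hcε⟩ := h ε hε
    exact ⟨_, by linarith, h1 (k + 1) hk K' L N' y' Δ' φ ψ μ c hy' hn' hΔ' hμ hpp hψ hlog hc⟩
  refine ⟨⟨hkod, ?_⟩, hnum, fun h0 => ?_⟩
  · rintro ⟨m, hm, ω, E, hω, hω0, hind⟩
    exact kappa_lt hy hn hk hnum hm hω hω0 hind
  · obtain ⟨m, hm, ω, E, hω, hω0, hind⟩ := hkod
    exact kappa_lt hy hn hk.le h0 hm hω hω0 hind
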